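import Mathlib

set_option autoImplicit false

open Metric Set

namespace Pool.Agent.V11164.Newton

/-- Euclidean `d`-space. -/
abbrev E (d : ℕ) : Type := EuclideanSpace ℝ (Fin d)

/-- The unit cube `[0,1]^k` in `ℝ^k`. -/
def cube (k : ℕ) : Set (E k) := {x | ∀ i, 0 ≤ x i ∧ x i ≤ 1}

/-- The base `[0,1]^n × {0}` of the pyramid, in `ℝ^(n+1)`. -/
def base (n : ℕ) : Set (E (n + 1)) :=
  {x | (∀ i : Fin n, 0 ≤ x i.castSucc ∧ x i.castSucc ≤ 1) ∧ x (Fin.last n) = 0}

/-- The apex `(1/2, ..., 1/2, h)`. -/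
noncomputable def apex (n : ℕ) (h : ℝ) : E (n + 1) :=
  WithLp.toLp 2 (Fin.snoc (α := fun _ => ℝ) (fun _ : Fin n => (1 / 2 : ℝ)) h)

/-- The right pyramid of height `h` over the `n`-dimensional unit cube, in `ℝ^(n+1)`. -/
noncomputable def pyramid (n : ℕ) (h : ℝ) : Set (E (n + 1)) :=
  convexHull ℝ (base n ∪ {apex n h})

lemma apex_castSucc (n : ℕ) (h : ℝ) (i : Fin n) : apex n h i.castSucc = 1 / 2 := by
  simp [apex]

lemma apex_last (n : ℕ) (h : ℝ) : apex n h (Fin.last n) = h := by
  simp [apex]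

/-- Description of the pyramid by inequalities. -/
lemma pyramid_subset {n : ℕ} {h : ℝ} (hh : 0 < h) :
    pyramid n h ⊆ {x | 0 ≤ x (Fin.last n) ∧ x (Fin.last n) ≤ h ∧
      ∀ i : Fin n, |x i.castSucc - 1 / 2| ≤ (1 - x (Fin.last n) / h) / 2} := by
  apply convexHull_min
  · rintro x (hx | hx)
    · refine ⟨hx.2.ge, by rw [hx.2]; exact hh.le, fun i => ?_⟩
      rw [hx.2, abs_le]
      have := hx.1 i
      constructor <;> simp <;> linarith
    · rw [mem_singleton_iff] at hx
      subst hx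
      refine ⟨by rw [apex_last]; exact hh.le, by rw [apex_last], fun i => ?_⟩
      rw [apex_last, apex_castSucc, div_self hh.ne']
      simp
  · intro x hx y hy a b ha hb hab
    obtain ⟨hx1, hx2, hx3⟩ := hx
    obtain ⟨hy1, hy2, hy3⟩ := hy
    simp only [mem_ofPred_eq, PiLp.add_apply, PiLp.smul_apply, smul_eq_mul]
    refine ⟨by positivity, by nlinarith, fun i => ?_⟩
    have h1 := abs_le.1 (hx3 i)
    have h2 := abs_le.1 (hy3 i)
    have e : (1 - (a * x (Fin.last n) + b * y (Fin.last n)) / h) / 2 =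
        a * ((1 - x (Fin.last n) / h) / 2) + b * ((1 - y (Fin.last n) / h) / 2) := by
      have : (1:ℝ) = a + b := hab.symm
      field_simp
      nlinarith
    rw [e, abs_le]
    constructor <;> nlinarith

lemma subset_pyramid {n : ℕ} {h : ℝ} (hh : 0 < h) :
    {x : E (n + 1) | 0 ≤ x (Fin.last n) ∧ x (Fin.last n) ≤ h ∧
      ∀ i : Fin n, |x i.castSucc - 1 / 2| ≤ (1 - x (Fin.last n) / h) / 2} ⊆ pyramid n h := by
  rintro x ⟨h0, h1, h2⟩
  set z := x (Fin.last n) with hz
  rcases h1.eq_or_lt with h1 | h1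
  · have : x = apex n h := by
      ext i
      refine Fin.lastCases ?_ (fun i => ?_) i
      · rw [apex_last, ← h1]
      · have := h2 i
        rw [h1, div_self hh.ne', sub_self, zero_div] at this
        rw [apex_castSucc]
        have := abs_nonpos_iff.1 this
        linarith
    rw [this]
    exact subset_convexHull ℝ _ (Or.inr rfl)
  have hz1 : 0 < 1 - z / h := by
    rw [sub_pos, div_lt_one hh]; exact h1
  let p : E (n + 1) := WithLp.toLp 2 (Fin.snoc (α := fun _ => ℝ)
    (fun i : Fin n => 1 / 2 + (x i.castSucc - 1 / 2) / (1 - z / h)) 0)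
  have hp : p ∈ base n := by
    refine ⟨fun i => ?_, by simp [p]⟩
    have := h2 i
    have h3 : |(x i.castSucc - 1 / 2) / (1 - z / h)| ≤ 1 / 2 := by
      rw [abs_div, abs_of_pos hz1, div_le_iff₀ hz1]
      linarith
    rw [abs_le] at h3
    simp only [p, Fin.snoc_castSucc]
    constructor <;> linarith
  have hx : x = (1 - z / h) • p + (z / h) • apex n h := by
    ext i
    refine Fin.lastCases ?_ (fun i => ?_) i
    · simp only [PiLp.add_apply, PiLp.smul_apply, smul_eq_mul, apex_last, p, Fin.snoc_last]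
      field_simp
      simp [hz]
    · simp only [PiLp.add_apply, PiLp.smul_apply, smul_eq_mul, apex_castSucc, p,
        Fin.snoc_castSucc]
      have h4 : (1 - z / h) * ((x i.castSucc - 1 / 2) / (1 - z / h)) = x i.castSucc - 1 / 2 := by
        rw [mul_div_assoc', mul_div_cancel_left₀ _ hz1.ne']
      linear_combination -h4
  rw [hx]
  exact (convex_convexHull ℝ (base n ∪ {apex n h})) (subset_convexHull ℝ _ (Or.inl hp))
    (subset_convexHull ℝ _ (Or.inr rfl)) hz1.le (by positivity) (by ring)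

lemma pyramid_eq {n : ℕ} {h : ℝ} (hh : 0 < h) :
    pyramid n h = {x | 0 ≤ x (Fin.last n) ∧ x (Fin.last n) ≤ h ∧
      ∀ i : Fin n, |x i.castSucc - 1 / 2| ≤ (1 - x (Fin.last n) / h) / 2} :=
  (pyramid_subset hh).antisymm (subset_pyramid hh)

lemma continuous_coord {d : ℕ} (i : Fin d) : Continuous fun x : E d => x i := by fun_prop

lemma isCompact_pyramid (n : ℕ) {h : ℝ} (hh : 0 < h) : IsCompact (pyramid n h) := by
  rw [pyramid_eq hh, isCompact_iff_isClosed_bounded]
  have hl := continuous_coord (Fin.last n)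
  constructor
  · have : {x : E (n + 1) | 0 ≤ x (Fin.last n) ∧ x (Fin.last n) ≤ h ∧
        ∀ i : Fin n, |x i.castSucc - 1 / 2| ≤ (1 - x (Fin.last n) / h) / 2} =
        ({x : E (n + 1) | 0 ≤ x (Fin.last n)} ∩ {x : E (n + 1) | x (Fin.last n) ≤ h}) ∩
          ⋂ i : Fin n, {x : E (n + 1) | |x i.castSucc - 1 / 2| ≤
            (1 - x (Fin.last n) / h) / 2} := by
      ext x; simp [and_assoc]
    rw [this]
    refine IsClosed.inter ((isClosed_le continuous_const hl).inter
      (isClosed_le hl continuous_const)) (isClosed_iInter fun i => ?_)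
    have hi := continuous_coord i.castSucc
    exact isClosed_le (by fun_prop) (by fun_prop)
  · rw [isBounded_iff_forall_norm_le]
    refine ⟨Real.sqrt (n + h ^ 2), fun x hx => ?_⟩
    obtain ⟨h0, h1, h2⟩ := hx
    rw [EuclideanSpace.norm_eq]
    apply Real.sqrt_le_sqrt
    rw [Fin.sum_univ_castSucc]
    have : ∑ i : Fin n, ‖x i.castSucc‖ ^ 2 ≤ ∑ i : Fin n, (1:ℝ) := by
      apply Finset.sum_le_sum
      intro i _
      have h3 := abs_le.1 (h2 i)
      have h4 : 0 ≤ x (Fin.last n) / h := by positivity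
      rw [Real.norm_eq_abs, sq_abs]
      have h5 : -0 ≤ x i.castSucc := by linarith
      have h6 : x i.castSucc ≤ 1 := by linarith
      nlinarith
    have h5 : ‖x (Fin.last n)‖ ^ 2 ≤ h ^ 2 := by
      rw [Real.norm_eq_abs, sq_abs]; nlinarith
    simp at this h5 ⊢
    linarith

lemma isCompact_cube (k : ℕ) : IsCompact (cube k) := by
  rw [isCompact_iff_isClosed_bounded]
  constructor
  · have : cube k = (⋂ i : Fin k, {x : E k | 0 ≤ x i ∧ x i ≤ 1}) := by
      ext x; simp [cube]
    rw [this]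
    refine isClosed_iInter fun i => ?_
    exact (isClosed_le continuous_const (continuous_coord i)).inter
        (isClosed_le (continuous_coord i) continuous_const)
  · rw [isBounded_iff_forall_norm_le]
    refine ⟨Real.sqrt k, fun x hx => ?_⟩
    rw [EuclideanSpace.norm_eq]
    apply Real.sqrt_le_sqrt
    have : ∑ i : Fin k, ‖x i‖ ^ 2 ≤ ∑ i : Fin k, (1:ℝ) := by
      apply Finset.sum_le_sum
      intro i _
      have := hx i
      rw [Real.norm_eq_abs, sq_abs]
      nlinarith
    simpa using this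

/-- The congruent copies `g i '' C` cover a neighbourhood of `C`: their union contains an open
set containing `C`. -/
def Covers {d k : ℕ} (C : Set (E d)) (g : Fin k → (E d ≃ᵢ E d)) : Prop :=
  ∃ U : Set (E d), IsOpen U ∧ C ⊆ U ∧ U ⊆ ⋃ i, g i '' C

/-- If `C` contains `m` points whose pairwise distances equal `D`, an upper bound for all
distances in `C`, then at least `m` congruent copies are needed. -/
lemma lower {d k m : ℕ} {C : Set (E d)} {D : ℝ} (hD : 0 < D)
    (hC : ∀ x ∈ C, ∀ y ∈ C, dist x y ≤ D) (p : Fin m → E d) (hp : ∀ i, p i ∈ C)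
    (hpd : ∀ i j, i ≠ j → dist (p i) (p j) = D) (g : Fin k → (E d ≃ᵢ E d))
    (hg : Covers C g) : m ≤ k := by
  obtain ⟨U, hU, hCU, hUg⟩ := hg
  by_contra hlt
  push Not at hlt
  have hm : 0 < m := by omega
  let p0 := p ⟨0, hm⟩
  -- a homothety about `p0`
  have h1 : ∀ i, ∀ᶠ t : ℝ in nhdsWithin 0 (Ioi 0), p i + t • (p i - p0) ∈ U := by
    intro i
    have hc : Continuous fun t : ℝ => p i + t • (p i - p0) := by fun_prop
    have : ∀ᶠ t : ℝ in nhds 0, p i + t • (p i - p0) ∈ U := by
      apply hc.continuousAt.eventually_mem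
      apply hU.mem_nhds
      simpa using hCU (hp i)
    exact this.filter_mono nhdsWithin_le_nhds
  have h2 : ∀ᶠ t : ℝ in nhdsWithin 0 (Ioi 0), ∀ i, p i + t • (p i - p0) ∈ U :=
    Filter.eventually_all.2 h1
  obtain ⟨t, ht1, ht2⟩ := (h2.and self_mem_nhdsWithin).exists
  have h3 : ∀ i, ∃ a : Fin k, p i + t • (p i - p0) ∈ g a '' C := by
    intro i
    simpa using hUg (ht1 i)
  choose a ha using h3
  obtain ⟨i, j, hij, haij⟩ := Fintype.exists_ne_map_eq_of_card_lt a (by simpa using hlt)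
  have h4 : ∀ x ∈ g (a j) '' C, ∀ y ∈ g (a j) '' C, dist x y ≤ D := by
    rintro _ ⟨x, hx, rfl⟩ _ ⟨y, hy, rfl⟩
    rw [(g (a j)).isometry.dist_eq]
    exact hC x hx y hy
  have h5 := h4 _ (haij ▸ ha i) _ (ha j)
  have h6 : (p i + t • (p i - p0)) - (p j + t • (p j - p0)) = (1 + t) • (p i - p j) := by
    module
  rw [dist_eq_norm, h6, norm_smul, ← dist_eq_norm, hpd i j hij, Real.norm_eq_abs,
    abs_of_pos (by have : (0:ℝ) < t := ht2; linarith)] at h5
  have : (0:ℝ) < t := ht2
  nlinarith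

/-- A compact set with two distinct points needs at least two congruent copies. -/
lemma two_le {d k : ℕ} {C : Set (E d)} (hC : IsCompact C) (hC2 : ∃ x ∈ C, ∃ y ∈ C, x ≠ y)
    (g : Fin k → (E d ≃ᵢ E d)) (hg : Covers C g) : 2 ≤ k := by
  obtain ⟨x, hx, y, hy, hxy⟩ := hC2
  obtain ⟨ab, hab0, hab⟩ := (hC.prod hC).exists_isMaxOn ⟨(x, y), hx, hy⟩
    (f := fun q : E d × E d => dist q.1 q.2) (by fun_prop)
  have hmax : ∀ u ∈ C, ∀ v ∈ C, dist u v ≤ dist ab.1 ab.2 := fun u hu v hv =>
    isMaxOn_iff.1 hab (u, v) ⟨hu, hv⟩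
  have hD : 0 < dist ab.1 ab.2 := lt_of_lt_of_le (dist_pos.2 hxy) (hmax x hx y hy)
  refine lower (m := 2) hD hmax (fun i => if i = 0 then ab.1 else ab.2) ?_ ?_ g hg
  · intro i
    show (if i = 0 then ab.1 else ab.2) ∈ C
    split_ifs
    · exact hab0.1
    · exact hab0.2
  · intro i j hij
    show dist (if i = 0 then ab.1 else ab.2) (if j = 0 then ab.1 else ab.2) = _
    by_cases hi : i = 0
    · have hj : j ≠ 0 := fun h => hij (hi.trans h.symm)
      rw [if_pos hi, if_neg hj]
    · have hj : j = 0 := by omega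
      rw [if_neg hi, if_pos hj, dist_comm]

end Pool.Agent.V11164.Newton
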