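import Pool.Agent.V11164.Rupert

set_option autoImplicit false

open Metric Set
open scoped Pointwise

namespace Pool.Agent.V11164.Newton

/-- Finitely many translates of a compact set with an interior point cover a neighbourhood. -/
lemma exists_covers {d : ℕ} {C : Set (E d)} (hC : IsCompact C) (hi : (interior C).Nonempty) :
    ∃ (m : ℕ) (g : Fin m → (E d ≃ᵢ E d)), Covers C g := by
  obtain ⟨x0, hx0⟩ := hi
  obtain ⟨r, hr, hball⟩ := Metric.isOpen_iff.1 isOpen_interior x0 hx0
  obtain ⟨t, -, htf, ht⟩ := hC.cthickening (r := 1) |>.finite_cover_balls hr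
  let e := htf.toFinset.equivFin
  refine ⟨htf.toFinset.card, fun a => IsometryEquiv.addRight ((e.symm a : E d) - x0),
    thickening 1 C, isOpen_thickening, self_subset_thickening one_pos C, ?_⟩
  intro y hy
  obtain ⟨x, hx, hyx⟩ := mem_iUnion₂.1 (ht (thickening_subset_cthickening 1 C hy))
  rw [mem_iUnion]
  refine ⟨e ⟨x, htf.mem_toFinset.2 hx⟩, y - (x - x0), ?_, ?_⟩
  · apply interior_subset
    apply hball
    rw [mem_ball, dist_eq_norm] at hyx ⊢
    rwa [show y - (x - x0) - x0 = y - x by abel]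
  · show y - (x - x0) + (((e.symm (e ⟨x, htf.mem_toFinset.2 hx⟩)) : E d) - x0) = y
    rw [Equiv.symm_apply_apply, sub_add_cancel]

lemma pyramid_interior {n : ℕ} (hn : 1 ≤ n) {h : ℝ} (hh : 0 < h) :
    (interior (pyramid n h)).Nonempty := by
  have hsub : {x : E (n + 1) | 0 < x (Fin.last n) ∧
      ∀ i : Fin n, |x i.castSucc - 1 / 2| < (1 - x (Fin.last n) / h) / 2} ⊆ pyramid n h := by
    intro x hx
    rw [pyramid_eq hh]
    refine ⟨hx.1.le, ?_, fun i => (hx.2 i).le⟩
    have h1 := (abs_nonneg _).trans_lt (hx.2 ⟨0, hn⟩)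
    have h2 : x (Fin.last n) / h < 1 := by linarith
    rw [div_lt_one hh] at h2
    exact h2.le
  have ho : IsOpen {x : E (n + 1) | 0 < x (Fin.last n) ∧
      ∀ i : Fin n, |x i.castSucc - 1 / 2| < (1 - x (Fin.last n) / h) / 2} := by
    have hcl := continuous_coord (Fin.last n)
    have : {x : E (n + 1) | 0 < x (Fin.last n) ∧
        ∀ i : Fin n, |x i.castSucc - 1 / 2| < (1 - x (Fin.last n) / h) / 2} =
        {x | 0 < x (Fin.last n)} ∩
        ⋂ i : Fin n, {x | |x i.castSucc - 1 / 2| < (1 - x (Fin.last n) / h) / 2} := by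
      ext x; simp
    rw [this]
    refine (isOpen_lt continuous_const hcl).inter (isOpen_iInter_of_finite fun i => ?_)
    have hci := continuous_coord i.castSucc
    exact isOpen_lt (by fun_prop) (by fun_prop)
  refine ⟨apex n (h / 2), ?_⟩
  rw [mem_interior]
  refine ⟨_, hsub, ho, ?_, fun i => ?_⟩
  · rw [apex_last]; positivity
  · rw [apex_last, apex_castSucc, sub_self, abs_zero]
    have : h / 2 / h = 1 / 2 := by field_simp
    rw [this]; norm_num

lemma pyramid_two_points {n : ℕ} (hn : 1 ≤ n) (h : ℝ) :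
    ∃ x ∈ pyramid n h, ∃ y ∈ pyramid n h, x ≠ y := by
  refine ⟨0, subset_convexHull ℝ _ (Or.inl ⟨fun i => by simp, by simp⟩),
    EuclideanSpace.single (Fin.castSucc ⟨0, hn⟩) 1,
    subset_convexHull ℝ _ (Or.inl ⟨fun i => ?_, ?_⟩), ?_⟩
  · rw [PiLp.single_apply]
    split_ifs <;> norm_num
  · rw [PiLp.single_apply, if_neg (Fin.castSucc_lt_last _).ne']
  · intro he
    have := congrArg (fun v : E (n + 1) => v (Fin.castSucc ⟨0, hn⟩)) he
    simp at this

lemma cube_two_points {n : ℕ} (hn : 1 ≤ n) : ∃ x ∈ cube n, ∃ y ∈ cube n, x ≠ y := by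
  refine ⟨0, fun i => by simp, EuclideanSpace.single ⟨0, hn⟩ 1, fun i => ?_, ?_⟩
  · rw [PiLp.single_apply]
    split_ifs <;> norm_num
  · intro he
    have := congrArg (fun v : E n => v ⟨0, hn⟩) he
    simp at this

/-- Three points at mutual distance `√n`, the diameter: `N* ≥ 3` for the special height. -/
lemma three_le {n k : ℕ} (hn : 1 ≤ n) (g : Fin k → (E (n + 1) ≃ᵢ E (n + 1)))
    (hg : Covers (pyramid n (Real.sqrt (3 * n) / 2)) g) : 3 ≤ k := by
  set h0 := Real.sqrt (3 * n) / 2 with hh0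
  have hn0 : (0:ℝ) < n := by exact_mod_cast hn
  have hsq : h0 ^ 2 = 3 * n / 4 := by
    rw [hh0, div_pow, Real.sq_sqrt (by positivity)]; norm_num
  have hd : ∀ x y : E (n + 1), dist x y =
      Real.sqrt (∑ i : Fin n, (x i.castSucc - y i.castSucc) ^ 2 +
        (x (Fin.last n) - y (Fin.last n)) ^ 2) := by
    intro x y
    rw [EuclideanSpace.dist_eq, Fin.sum_univ_castSucc]
    simp only [Real.dist_eq, sq_abs]
  have hba : ∀ x ∈ base n, dist x (apex n h0) ≤ Real.sqrt n := by
    intro x hx
    rw [hd]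
    apply Real.sqrt_le_sqrt
    rw [apex_last, hx.2]
    have : ∑ i : Fin n, (x i.castSucc - apex n h0 i.castSucc) ^ 2 ≤ ∑ i : Fin n, (1 / 4 : ℝ) := by
      apply Finset.sum_le_sum
      intro i _
      rw [apex_castSucc]
      have := hx.1 i
      nlinarith
    simp at this ⊢
    linarith
  have hbb : ∀ x ∈ base n, ∀ y ∈ base n, dist x y ≤ Real.sqrt n := by
    intro x hx y hy
    rw [hd]
    apply Real.sqrt_le_sqrt
    rw [hy.2, hx.2]
    have : ∑ i : Fin n, (x i.castSucc - y i.castSucc) ^ 2 ≤ ∑ i : Fin n, (1 : ℝ) := by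
      apply Finset.sum_le_sum
      intro i _
      have := hx.1 i
      have := hy.1 i
      nlinarith
    simp at this ⊢
    linarith
  have hC : ∀ x ∈ pyramid n h0, ∀ y ∈ pyramid n h0, dist x y ≤ Real.sqrt n := by
    intro x hx y hy
    obtain ⟨x', hx', y', hy', hle⟩ := convexHull_exists_dist_ge2 hx hy
    refine hle.trans ?_
    rcases hx' with hx' | hx'
    · rcases hy' with hy' | hy'
      · exact hbb _ hx' _ hy'
      · rw [mem_singleton_iff.1 hy']; exact hba _ hx'
    · rw [mem_singleton_iff.1 hx']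
      rcases hy' with hy' | hy'
      · rw [dist_comm]; exact hba _ hy'
      · rw [mem_singleton_iff.1 hy', dist_self]; positivity
  let v1 : E (n + 1) := apex n 0 + apex n 0
  have hv1 : ∀ i : Fin n, v1 i.castSucc = 1 := fun i => by
    rw [PiLp.add_apply, apex_castSucc]; norm_num
  have hv1' : v1 (Fin.last n) = 0 := by rw [PiLp.add_apply, apex_last]; norm_num
  have d01 : dist (0 : E (n + 1)) v1 = Real.sqrt n := by
    rw [hd]
    simp [hv1, hv1']
  have d0a : dist (0 : E (n + 1)) (apex n h0) = Real.sqrt n := by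
    rw [hd]
    congr 1
    simp only [apex_castSucc, apex_last, PiLp.zero_apply]
    simp [hsq]
    ring
  have d1a : dist v1 (apex n h0) = Real.sqrt n := by
    rw [hd]
    congr 1
    simp only [apex_castSucc, apex_last, hv1, hv1']
    simp [hsq]
    ring
  have hm0 : (0 : E (n + 1)) ∈ pyramid n h0 :=
    subset_convexHull ℝ _ (Or.inl ⟨fun i => by simp, by simp⟩)
  have hm1 : v1 ∈ pyramid n h0 :=
    subset_convexHull ℝ _ (Or.inl ⟨fun i => by rw [hv1]; norm_num, hv1'⟩)
  have hma : apex n h0 ∈ pyramid n h0 := subset_convexHull ℝ _ (Or.inr rfl)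
  refine lower (m := 3) (D := Real.sqrt n) (by positivity) hC
    (fun i => if i = 0 then 0 else if i = 1 then v1 else apex n h0) ?_ ?_ g hg
  · intro i
    show (if i = 0 then (0 : E (n + 1)) else if i = 1 then v1 else apex n h0) ∈ pyramid n h0
    split_ifs
    · exact hm0
    · exact hm1
    · exact hma
  · intro i j hij
    show dist (if i = 0 then (0 : E (n + 1)) else if i = 1 then v1 else apex n h0)
      (if j = 0 then (0 : E (n + 1)) else if j = 1 then v1 else apex n h0) = Real.sqrt n
    rw [dist_zero_left] at d01 d0a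
    fin_cases i <;> fin_cases j <;> simp at hij ⊢
    · exact d01
    · exact d0a
    · exact d01
    · exact d1a
    · exact d0a
    · rw [dist_comm] at d1a; exact d1a

end Pool.Agent.V11164.Newton
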