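import Mathlib

set_option autoImplicit false

open Metric Set MeasureTheory

namespace Pool.Agent.V11164.RightTri

/-- The Euclidean plane. -/
abbrev E2 : Type := EuclideanSpace ℝ (Fin 2)

/-- the determinant of two plane vectors -/
def cross (u v : E2) : ℝ := u 0 * v 1 - u 1 * v 0

lemma mem_tri_iff {a b c x : E2} : x ∈ convexHull ℝ ({a, b, c} : Set E2) ↔
    ∃ α β γ : ℝ, 0 ≤ α ∧ 0 ≤ β ∧ 0 ≤ γ ∧ α + β + γ = 1 ∧ x = α • a + β • b + γ • c := by
  constructor
  · intro hx
    have hsub : convexHull ℝ ({a, b, c} : Set E2) ⊆ {x | ∃ α β γ : ℝ, 0 ≤ α ∧ 0 ≤ β ∧ 0 ≤ γ ∧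
        α + β + γ = 1 ∧ x = α • a + β • b + γ • c} := by
      apply convexHull_min
      · rintro x (rfl | rfl | rfl)
        · exact ⟨1, 0, 0, by norm_num, by norm_num, by norm_num, by norm_num, by module⟩
        · exact ⟨0, 1, 0, by norm_num, by norm_num, by norm_num, by norm_num, by module⟩
        · exact ⟨0, 0, 1, by norm_num, by norm_num, by norm_num, by norm_num, by module⟩
      · rintro x ⟨α, β, γ, h1, h2, h3, h4, rfl⟩ y ⟨α', β', γ', h1', h2', h3', h4', rfl⟩ s t hs ht hst
        refine ⟨s * α + t * α', s * β + t * β', s * γ + t * γ', by positivity, by positivity,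
          by positivity, ?_, by module⟩
        linear_combination s * h4 + t * h4' + hst
    exact hsub hx
  · rintro ⟨α, β, γ, h1, h2, h3, h4, rfl⟩
    have hc := convex_convexHull ℝ ({a, b, c} : Set E2)
    have := hc.sum_mem (t := Finset.univ) (w := ![α, β, γ]) (z := ![a, b, c])
      (by intro i _; fin_cases i <;> simpa) (by simpa [Fin.sum_univ_three] using h4)
      (by intro i _; apply subset_convexHull; fin_cases i <;> simp)
    simpa [Fin.sum_univ_three] using this

/-- membership in a positively oriented triangle by signs -/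
lemma mem_tri_of_cross {a b c x : E2} (hD : 0 < cross (b - a) (c - a))
    (h1 : 0 ≤ cross (b - a) (x - a)) (h2 : 0 ≤ cross (x - a) (c - a))
    (h3 : cross (b - a) (x - a) + cross (x - a) (c - a) ≤ cross (b - a) (c - a)) :
    x ∈ convexHull ℝ ({a, b, c} : Set E2) := by
  rw [mem_tri_iff]
  have key0 : cross (b - a) (c - a) * (x 0 - a 0) =
      cross (x - a) (c - a) * (b 0 - a 0) + cross (b - a) (x - a) * (c 0 - a 0) := by
    simp [cross]; ring
  have key1 : cross (b - a) (c - a) * (x 1 - a 1) =
      cross (x - a) (c - a) * (b 1 - a 1) + cross (b - a) (x - a) * (c 1 - a 1) := by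
    simp [cross]; ring
  generalize cross (b - a) (c - a) = D at *
  generalize cross (x - a) (c - a) = p at *
  generalize cross (b - a) (x - a) = q at *
  refine ⟨1 - p / D - q / D, p / D, q / D, ?_, by positivity, by positivity, by ring, ?_⟩
  · rw [sub_sub, ← add_div, sub_nonneg, div_le_one hD]
    linarith
  · ext i
    fin_cases i
    · simp
      field_simp
      linarith
    · simp
      field_simp
      linarith

/-- the linear map with given images of the basis vectors -/
noncomputable def lin (u v : E2) : E2 →ₗ[ℝ] E2 :=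
  Matrix.toLin (EuclideanSpace.basisFun (Fin 2) ℝ).toBasis
    (EuclideanSpace.basisFun (Fin 2) ℝ).toBasis (!![u 0, v 0; u 1, v 1])

lemma lin_apply (u v x : E2) : lin u v x = x 0 • u + x 1 • v := by
  rw [lin, Matrix.toLin_apply]
  ext i
  fin_cases i
  · simp [Matrix.mulVec, Fin.sum_univ_two]
    ring
  · simp [Matrix.mulVec, Fin.sum_univ_two]
    ring

lemma det_lin (u v : E2) : LinearMap.det (lin u v) = cross u v := by
  rw [lin, LinearMap.det_toLin, Matrix.det_fin_two]
  simp [cross]
  ring

/-- the standard triangle -/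
def T0 : Set E2 := convexHull ℝ {0, EuclideanSpace.single 0 1, EuclideanSpace.single 1 1}

lemma tri_eq (a b c : E2) : convexHull ℝ ({a, b, c} : Set E2) =
    (fun x => a + x) '' (lin (b - a) (c - a) '' T0) := by
  ext x
  simp only [mem_image, T0, exists_exists_and_eq_and]
  constructor
  · intro hx
    obtain ⟨α, β, γ, h1, h2, h3, h4, rfl⟩ := mem_tri_iff.1 hx
    refine ⟨α • 0 + β • EuclideanSpace.single 0 1 + γ • EuclideanSpace.single 1 1,
      mem_tri_iff.2 ⟨α, β, γ, h1, h2, h3, h4, rfl⟩, ?_⟩
    rw [lin_apply]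
    have hα : α = 1 - β - γ := by linarith
    rw [hα]
    simp
    module
  · rintro ⟨y, hy, rfl⟩
    obtain ⟨α, β, γ, h1, h2, h3, h4, rfl⟩ := mem_tri_iff.1 hy
    refine mem_tri_iff.2 ⟨α, β, γ, h1, h2, h3, h4, ?_⟩
    rw [lin_apply]
    have hα : α = 1 - β - γ := by linarith
    rw [hα]
    simp
    module

lemma volume_tri (a b c : E2) : volume (convexHull ℝ ({a, b, c} : Set E2)) =
    ENNReal.ofReal |cross (b - a) (c - a)| * volume T0 := by
  rw [tri_eq, image_add_left, measure_preimage_add, Measure.addHaar_image_linearMap, det_lin]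

lemma T0_compact : IsCompact T0 := (Set.toFinite _).isCompact_convexHull ℝ

lemma T0_lt_top : volume T0 < ⊤ := T0_compact.measure_lt_top

lemma T0_pos : 0 < volume T0 := by
  have hsub : {x : E2 | 0 < x 0 ∧ 0 < x 1 ∧ x 0 + x 1 < 1} ⊆ T0 := by
    rintro x ⟨h0, h1, h2⟩
    refine mem_tri_iff.2 ⟨1 - x 0 - x 1, x 0, x 1, by linarith, h0.le, h1.le, by ring, ?_⟩
    ext i
    fin_cases i <;> simp
  have ho : IsOpen {x : E2 | 0 < x 0 ∧ 0 < x 1 ∧ x 0 + x 1 < 1} := by
    have c0 : Continuous fun x : E2 => x 0 := by fun_prop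
    have c1 : Continuous fun x : E2 => x 1 := by fun_prop
    exact (isOpen_lt continuous_const c0).inter ((isOpen_lt continuous_const c1).inter
      (isOpen_lt (c0.add c1) continuous_const))
  refine lt_of_lt_of_le (ho.measure_pos volume ⟨!₂[1/4, 1/4], ?_⟩) (measure_mono hsub)
  simp
  norm_num

end Pool.Agent.V11164.RightTri
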