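import Pool.Agent.V11164.RightTri

set_option autoImplicit false

open Metric Set MeasureTheory

namespace Pool.Agent.V11164.RightTri

/-- The pentagon with vertices `(-20,0), (20,0), (22,30), (0,31), (-22,30)`. -/
noncomputable def K0 : Set E2 :=
  convexHull ℝ {!₂[(-20 : ℝ), 0], !₂[20, 0], !₂[22, 30], !₂[0, 31], !₂[-22, 30]}

def P (x y : ℝ) : Prop := (!₂[x, y] : E2) ∈ K0

lemma v0_mem : P (-20) 0 := subset_convexHull ℝ _ (by simp)
lemma v1_mem : P 20 0 := subset_convexHull ℝ _ (by simp)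
lemma v2_mem : P 22 30 := subset_convexHull ℝ _ (by simp)
lemma v3_mem : P 0 31 := subset_convexHull ℝ _ (by simp)
lemma v4_mem : P (-22) 30 := subset_convexHull ℝ _ (by simp)

lemma edge_mem {a b a' b' x y t : ℝ} (h : P a b) (h' : P a' b') (ht0 : 0 ≤ t) (ht1 : t ≤ 1)
    (hx : x = (1 - t) * a + t * a') (hy : y = (1 - t) * b + t * b') : P x y := by
  have := (convex_convexHull ℝ _) h h' (sub_nonneg.2 ht1) ht0 (by ring)
  have e : (!₂[x, y] : E2) = (1 - t) • !₂[a, b] + t • !₂[a', b'] := by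
    ext i
    fin_cases i
    · simpa using hx
    · simpa using hy
  rw [P, K0, e]
  exact this

/-- for the leg direction `(c, s)` there are witnesses in `K0` -/
def Wit (c s : ℝ) : Prop := ∃ p0 p1 q0 q1 r0 r1 : ℝ, P p0 p1 ∧ P q0 q1 ∧ P r0 r1 ∧
  0 < (p0 - q0) * c + (p1 - q1) * s ∧ 0 < -(p0 - r0) * s + (p1 - r1) * c ∧
  1282 * (c ^ 2 + s ^ 2) <
    ((p0 - q0) * c + (p1 - q1) * s) * (-(p0 - r0) * s + (p1 - r1) * c)

lemma wit_of {p0 p1 q0 q1 r0 r1 x1 y1 x2 y2 c s : ℝ} (hp : P p0 p1) (hq : P q0 q1)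
    (hr : P r0 r1) (hD : 0 < x1 * y2 - y1 * x2)
    (ha1 : 0 < (p0 - q0) * x1 + (p1 - q1) * y1) (ha2 : 0 < (p0 - q0) * x2 + (p1 - q1) * y2)
    (hb1 : 0 < -(p0 - r0) * y1 + (p1 - r1) * x1) (hb2 : 0 < -(p0 - r0) * y2 + (p1 - r1) * x2)
    (hQ1 : 1282 * (x1 ^ 2 + y1 ^ 2) <
      ((p0 - q0) * x1 + (p1 - q1) * y1) * (-(p0 - r0) * y1 + (p1 - r1) * x1))
    (hQ2 : 1282 * (x2 ^ 2 + y2 ^ 2) <
      ((p0 - q0) * x2 + (p1 - q1) * y2) * (-(p0 - r0) * y2 + (p1 - r1) * x2))
    (hB : 2 * (1282 * (x1 * x2 + y1 * y2)) ≤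
      ((p0 - q0) * x1 + (p1 - q1) * y1) * (-(p0 - r0) * y2 + (p1 - r1) * x2) +
      ((p0 - q0) * x2 + (p1 - q1) * y2) * (-(p0 - r0) * y1 + (p1 - r1) * x1))
    (hw : 0 < c ^ 2 + s ^ 2) (h1 : 0 ≤ x1 * s - y1 * c) (h2 : 0 ≤ c * y2 - s * x2) :
    Wit c s := by
  refine ⟨p0, p1, q0, q1, r0, r1, hp, hq, hr, ?_⟩
  generalize p0 - q0 = a0 at *
  generalize p1 - q1 = a1 at *
  generalize p0 - r0 = b0 at *
  generalize p1 - r1 = b1 at *
  obtain ⟨l, hl⟩ : ∃ l, l = (c * y2 - s * x2) / (x1 * y2 - y1 * x2) := ⟨_, rfl⟩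
  obtain ⟨m, hm⟩ : ∃ m, m = (x1 * s - y1 * c) / (x1 * y2 - y1 * x2) := ⟨_, rfl⟩
  have hl0 : 0 ≤ l := by rw [hl]; positivity
  have hm0 : 0 ≤ m := by rw [hm]; positivity
  have hl' : l * (x1 * y2 - y1 * x2) = c * y2 - s * x2 := by
    rw [hl, div_mul_cancel₀ _ hD.ne']
  have hm' : m * (x1 * y2 - y1 * x2) = x1 * s - y1 * c := by
    rw [hm, div_mul_cancel₀ _ hD.ne']
  have hc : c = l * x1 + m * x2 := by
    apply mul_right_cancel₀ hD.ne'
    linear_combination -x1 * hl' - x2 * hm'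
  have hs : s = l * y1 + m * y2 := by
    apply mul_right_cancel₀ hD.ne'
    linear_combination -y1 * hl' - y2 * hm'
  have hlm : 0 < l ∨ 0 < m := by
    by_contra hcon
    push Not at hcon
    have e1 : l = 0 := le_antisymm hcon.1 hl0
    have e2 : m = 0 := le_antisymm hcon.2 hm0
    rw [hc, hs, e1, e2] at hw
    norm_num at hw
  have eA : a0 * c + a1 * s = l * (a0 * x1 + a1 * y1) + m * (a0 * x2 + a1 * y2) := by
    rw [hc, hs]; ring
  have eB : -b0 * s + b1 * c = l * (-b0 * y1 + b1 * x1) + m * (-b0 * y2 + b1 * x2) := by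
    rw [hc, hs]; ring
  have eC : 1282 * (c ^ 2 + s ^ 2) = l ^ 2 * (1282 * (x1 ^ 2 + y1 ^ 2)) +
      l * m * (2 * (1282 * (x1 * x2 + y1 * y2))) + m ^ 2 * (1282 * (x2 ^ 2 + y2 ^ 2)) := by
    rw [hc, hs]; ring
  rw [eA, eB, eC]
  generalize a0 * x1 + a1 * y1 = A1 at *
  generalize a0 * x2 + a1 * y2 = A2 at *
  generalize -b0 * y1 + b1 * x1 = B1 at *
  generalize -b0 * y2 + b1 * x2 = B2 at *
  generalize 1282 * (x1 ^ 2 + y1 ^ 2) = C1 at *
  generalize 1282 * (x2 ^ 2 + y2 ^ 2) = C2 at *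
  generalize 2 * (1282 * (x1 * x2 + y1 * y2)) = C3 at *
  have hlm0 : 0 ≤ l * m := mul_nonneg hl0 hm0
  refine ⟨?_, ?_, ?_⟩
  · rcases hlm with h | h
    · have := mul_pos h ha1
      have := mul_nonneg hm0 ha2.le
      linarith
    · have := mul_pos h ha2
      have := mul_nonneg hl0 ha1.le
      linarith
  · rcases hlm with h | h
    · have := mul_pos h hb1
      have := mul_nonneg hm0 hb2.le
      linarith
    · have := mul_pos h hb2
      have := mul_nonneg hl0 hb1.le
      linarith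
  · have e : (l * A1 + m * A2) * (l * B1 + m * B2) =
        l ^ 2 * (A1 * B1) + l * m * (A1 * B2 + A2 * B1) + m ^ 2 * (A2 * B2) := by ring
    rw [e]
    have t3 := mul_le_mul_of_nonneg_left hB hlm0
    rcases hlm with h | h
    · have t1 := mul_lt_mul_of_pos_left hQ1 (pow_pos h 2)
      have t2 := mul_le_mul_of_nonneg_left hQ2.le (sq_nonneg m)
      linarith
    · have t1 := mul_le_mul_of_nonneg_left hQ1.le (sq_nonneg l)
      have t2 := mul_lt_mul_of_pos_left hQ2 (pow_pos h 2)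
      linarith

lemma q1 {c s : ℝ} (hw : 0 < c ^ 2 + s ^ 2) (h1 : 0 ≤ s) (h2 : 0 ≤ c) : Wit c s := by
  rcases le_total 0 (c * (1) - s * (8)) with g | g
  · exact wit_of (p0 := (22)) (p1 := (30)) (q0 := (-22)) (q1 := (30)) (r0 := (20)) (r1 := (0)) (x1 := (1)) (y1 := (0)) (x2 := (8)) (y2 := (1))
      v2_mem v4_mem v1_mem (by norm_num) (by norm_num) (by norm_num) (by norm_num) (by norm_num) (by norm_num) (by norm_num) (by norm_num) hw (by linarith) (by linarith)
  rcases le_total 0 (c * (4) - s * (7)) with g | g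
  · exact wit_of (p0 := (22)) (p1 := (30)) (q0 := (-20)) (q1 := (0)) (r0 := (20)) (r1 := (0)) (x1 := (8)) (y1 := (1)) (x2 := (7)) (y2 := (4))
      v2_mem v0_mem v1_mem (by norm_num) (by norm_num) (by norm_num) (by norm_num) (by norm_num) (by norm_num) (by norm_num) (by norm_num) hw (by linarith) (by linarith)
  rcases le_total 0 (c * (3) - s * (4)) with g | g
  · exact wit_of (p0 := (11)) (p1 := (61/2)) (q0 := (-20)) (q1 := (0)) (r0 := (20)) (r1 := (0)) (x1 := (7)) (y1 := (4)) (x2 := (4)) (y2 := (3))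
      (edge_mem v2_mem v3_mem (t := (1/2)) (by norm_num) (by norm_num) (by norm_num) (by norm_num)) v0_mem v1_mem (by norm_num) (by norm_num) (by norm_num) (by norm_num) (by norm_num) (by norm_num) (by norm_num) (by norm_num) hw (by linarith) (by linarith)
  rcases le_total 0 (c * (10) - s * (11)) with g | g
  · exact wit_of (p0 := (11/2)) (p1 := (123/4)) (q0 := (-20)) (q1 := (0)) (r0 := (20)) (r1 := (0)) (x1 := (4)) (y1 := (3)) (x2 := (11)) (y2 := (10))
      (edge_mem v2_mem v3_mem (t := (3/4)) (by norm_num) (by norm_num) (by norm_num) (by norm_num)) v0_mem v1_mem (by norm_num) (by norm_num) (by norm_num) (by norm_num) (by norm_num) (by norm_num) (by norm_num) (by norm_num) hw (by linarith) (by linarith)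
  rcases le_total 0 (c * (5) - s * (4)) with g | g
  · exact wit_of (p0 := (0)) (p1 := (31)) (q0 := (-20)) (q1 := (0)) (r0 := (20)) (r1 := (0)) (x1 := (11)) (y1 := (10)) (x2 := (4)) (y2 := (5))
      v3_mem v0_mem v1_mem (by norm_num) (by norm_num) (by norm_num) (by norm_num) (by norm_num) (by norm_num) (by norm_num) (by norm_num) hw (by linarith) (by linarith)
  rcases le_total 0 (c * (11) - s * (7)) with g | g
  · exact wit_of (p0 := (-11/2)) (p1 := (123/4)) (q0 := (-20)) (q1 := (0)) (r0 := (20)) (r1 := (0)) (x1 := (4)) (y1 := (5)) (x2 := (7)) (y2 := (11))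
      (edge_mem v3_mem v4_mem (t := (1/4)) (by norm_num) (by norm_num) (by norm_num) (by norm_num)) v0_mem v1_mem (by norm_num) (by norm_num) (by norm_num) (by norm_num) (by norm_num) (by norm_num) (by norm_num) (by norm_num) hw (by linarith) (by linarith)
  rcases le_total 0 (c * (4) - s * (1)) with g | g
  · exact wit_of (p0 := (-33/2)) (p1 := (121/4)) (q0 := (-20)) (q1 := (0)) (r0 := (20)) (r1 := (0)) (x1 := (7)) (y1 := (11)) (x2 := (1)) (y2 := (4))
      (edge_mem v3_mem v4_mem (t := (3/4)) (by norm_num) (by norm_num) (by norm_num) (by norm_num)) v0_mem v1_mem (by norm_num) (by norm_num) (by norm_num) (by norm_num) (by norm_num) (by norm_num) (by norm_num) (by norm_num) hw (by linarith) (by linarith)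
  rcases le_total 0 (c * (17) - s * (1)) with g | g
  · exact wit_of (p0 := (-22)) (p1 := (30)) (q0 := (-20)) (q1 := (0)) (r0 := (20)) (r1 := (0)) (x1 := (1)) (y1 := (4)) (x2 := (1)) (y2 := (17))
      v4_mem v0_mem v1_mem (by norm_num) (by norm_num) (by norm_num) (by norm_num) (by norm_num) (by norm_num) (by norm_num) (by norm_num) hw (by linarith) (by linarith)
  exact wit_of (p0 := (-22)) (p1 := (30)) (q0 := (-20)) (q1 := (0)) (r0 := (22)) (r1 := (30)) (x1 := (1)) (y1 := (17)) (x2 := (0)) (y2 := (1))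
    v4_mem v0_mem v2_mem (by norm_num) (by norm_num) (by norm_num) (by norm_num) (by norm_num) (by norm_num) (by norm_num) (by norm_num) hw (by linarith) (by linarith)

lemma q2 {c s : ℝ} (hw : 0 < c ^ 2 + s ^ 2) (h1 : c ≤ 0) (h2 : 0 ≤ s) : Wit c s := by
  rcases le_total 0 (c * (3) - s * (-4)) with g | g
  · exact wit_of (p0 := (-22)) (p1 := (30)) (q0 := (20)) (q1 := (0)) (r0 := (22)) (r1 := (30)) (x1 := (0)) (y1 := (1)) (x2 := (-4)) (y2 := (3))
      v4_mem v1_mem v2_mem (by norm_num) (by norm_num) (by norm_num) (by norm_num) (by norm_num) (by norm_num) (by norm_num) (by norm_num) hw (by linarith) (by linarith)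
  rcases le_total 0 (c * (1) - s * (-8)) with g | g
  · exact wit_of (p0 := (-20)) (p1 := (0)) (q0 := (20)) (q1 := (0)) (r0 := (22)) (r1 := (30)) (x1 := (-4)) (y1 := (3)) (x2 := (-8)) (y2 := (1))
      v0_mem v1_mem v2_mem (by norm_num) (by norm_num) (by norm_num) (by norm_num) (by norm_num) (by norm_num) (by norm_num) (by norm_num) hw (by linarith) (by linarith)
  rcases le_total 0 (c * (1) - s * (-24)) with g | g
  · exact wit_of (p0 := (-20)) (p1 := (0)) (q0 := (22)) (q1 := (30)) (r0 := (22)) (r1 := (30)) (x1 := (-8)) (y1 := (1)) (x2 := (-24)) (y2 := (1))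
      v0_mem v2_mem v2_mem (by norm_num) (by norm_num) (by norm_num) (by norm_num) (by norm_num) (by norm_num) (by norm_num) (by norm_num) hw (by linarith) (by linarith)
  exact wit_of (p0 := (-20)) (p1 := (0)) (q0 := (22)) (q1 := (30)) (r0 := (0)) (r1 := (31)) (x1 := (-24)) (y1 := (1)) (x2 := (-1)) (y2 := (0))
    v0_mem v2_mem v3_mem (by norm_num) (by norm_num) (by norm_num) (by norm_num) (by norm_num) (by norm_num) (by norm_num) (by norm_num) hw (by linarith) (by linarith)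

lemma q3 {c s : ℝ} (hw : 0 < c ^ 2 + s ^ 2) (h1 : s ≤ 0) (h2 : c ≤ 0) : Wit c s := by
  rcases le_total 0 (c * (-1) - s * (-8)) with g | g
  · exact wit_of (p0 := (-20)) (p1 := (0)) (q0 := (22)) (q1 := (30)) (r0 := (0)) (r1 := (31)) (x1 := (-1)) (y1 := (0)) (x2 := (-8)) (y2 := (-1))
      v0_mem v2_mem v3_mem (by norm_num) (by norm_num) (by norm_num) (by norm_num) (by norm_num) (by norm_num) (by norm_num) (by norm_num) hw (by linarith) (by linarith)
  rcases le_total 0 (c * (-2) - s * (-3)) with g | g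
  · exact wit_of (p0 := (-20)) (p1 := (0)) (q0 := (22)) (q1 := (30)) (r0 := (-22)) (r1 := (30)) (x1 := (-8)) (y1 := (-1)) (x2 := (-3)) (y2 := (-2))
      v0_mem v2_mem v4_mem (by norm_num) (by norm_num) (by norm_num) (by norm_num) (by norm_num) (by norm_num) (by norm_num) (by norm_num) hw (by linarith) (by linarith)
  rcases le_total 0 (c * (-3) - s * (-2)) with g | g
  · exact wit_of (p0 := (0)) (p1 := (0)) (q0 := (22)) (q1 := (30)) (r0 := (-22)) (r1 := (30)) (x1 := (-3)) (y1 := (-2)) (x2 := (-2)) (y2 := (-3))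
      (edge_mem v0_mem v1_mem (t := (1/2)) (by norm_num) (by norm_num) (by norm_num) (by norm_num)) v2_mem v4_mem (by norm_num) (by norm_num) (by norm_num) (by norm_num) (by norm_num) (by norm_num) (by norm_num) (by norm_num) hw (by linarith) (by linarith)
  rcases le_total 0 (c * (-10) - s * (-1)) with g | g
  · exact wit_of (p0 := (20)) (p1 := (0)) (q0 := (22)) (q1 := (30)) (r0 := (-22)) (r1 := (30)) (x1 := (-2)) (y1 := (-3)) (x2 := (-1)) (y2 := (-10))
      v1_mem v2_mem v4_mem (by norm_num) (by norm_num) (by norm_num) (by norm_num) (by norm_num) (by norm_num) (by norm_num) (by norm_num) hw (by linarith) (by linarith)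
  exact wit_of (p0 := (20)) (p1 := (0)) (q0 := (0)) (q1 := (31)) (r0 := (-22)) (r1 := (30)) (x1 := (-1)) (y1 := (-10)) (x2 := (0)) (y2 := (-1))
    v1_mem v3_mem v4_mem (by norm_num) (by norm_num) (by norm_num) (by norm_num) (by norm_num) (by norm_num) (by norm_num) (by norm_num) hw (by linarith) (by linarith)

lemma q4 {c s : ℝ} (hw : 0 < c ^ 2 + s ^ 2) (h1 : 0 ≤ c) (h2 : s ≤ 0) : Wit c s := by
  rcases le_total 0 (c * (-13) - s * (1)) with g | g
  · exact wit_of (p0 := (20)) (p1 := (0)) (q0 := (0)) (q1 := (31)) (r0 := (-22)) (r1 := (30)) (x1 := (0)) (y1 := (-1)) (x2 := (1)) (y2 := (-13))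
      v1_mem v3_mem v4_mem (by norm_num) (by norm_num) (by norm_num) (by norm_num) (by norm_num) (by norm_num) (by norm_num) (by norm_num) hw (by linarith) (by linarith)
  rcases le_total 0 (c * (-1) - s * (1)) with g | g
  · exact wit_of (p0 := (20)) (p1 := (0)) (q0 := (-22)) (q1 := (30)) (r0 := (-20)) (r1 := (0)) (x1 := (1)) (y1 := (-13)) (x2 := (1)) (y2 := (-1))
      v1_mem v4_mem v0_mem (by norm_num) (by norm_num) (by norm_num) (by norm_num) (by norm_num) (by norm_num) (by norm_num) (by norm_num) hw (by linarith) (by linarith)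
  exact wit_of (p0 := (22)) (p1 := (30)) (q0 := (-22)) (q1 := (30)) (r0 := (-20)) (r1 := (0)) (x1 := (1)) (y1 := (-1)) (x2 := (1)) (y2 := (0))
    v2_mem v4_mem v0_mem (by norm_num) (by norm_num) (by norm_num) (by norm_num) (by norm_num) (by norm_num) (by norm_num) (by norm_num) hw (by linarith) (by linarith)

lemma wit (c s : ℝ) (hw : 0 < c ^ 2 + s ^ 2) : Wit c s := by
  rcases le_total 0 c with h | h <;> rcases le_total 0 s with h' | h'
  · exact q1 hw h' h
  · exact q4 hw h h'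
  · exact q2 hw h h'
  · exact q3 hw h' h

end Pool.Agent.V11164.RightTri
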