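import Pool.Agent.V11164.RightTriArcs

set_option autoImplicit false

open Metric Set MeasureTheory

namespace Pool.Agent.V11164.RightTri

lemma inner_E2 (u v : E2) : inner ℝ u v = u 0 * v 0 + u 1 * v 1 := by
  simp [PiLp.inner_apply, Fin.sum_univ_two, mul_comm]

lemma key_pos {A B C : E2} (h : inner ℝ (B - A) (C - A) = 0) (hD : 0 < cross (B - A) (C - A))
    (hK : K0 ⊆ convexHull ℝ {A, B, C}) : 5128 < cross (B - A) (C - A) := by
  obtain ⟨w0, hw0⟩ : ∃ w0, w0 = B 0 - A 0 := ⟨_, rfl⟩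
  obtain ⟨w1, hw1⟩ : ∃ w1, w1 = B 1 - A 1 := ⟨_, rfl⟩
  obtain ⟨z0, hz0⟩ : ∃ z0, z0 = C 0 - A 0 := ⟨_, rfl⟩
  obtain ⟨z1, hz1⟩ : ∃ z1, z1 = C 1 - A 1 := ⟨_, rfl⟩
  rw [inner_E2] at h
  simp only [PiLp.sub_apply] at h
  simp only [cross, PiLp.sub_apply] at hD ⊢
  rw [← hw0, ← hw1, ← hz0, ← hz1] at h hD ⊢
  have hW : 0 < w0 ^ 2 + w1 ^ 2 := by
    by_contra hcon
    have h0 : w0 = 0 := by nlinarith [sq_nonneg w0, sq_nonneg w1]
    have h1 : w1 = 0 := by nlinarith [sq_nonneg w0, sq_nonneg w1]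
    rw [h0, h1] at hD
    norm_num at hD
  obtain ⟨p0, p1, q0, q1, r0, r1, hp, hq, hr, hX, hY, hXY⟩ := wit w0 w1 hW
  obtain ⟨α, β, γ, hα, hβ, hγ, hs, hpe⟩ := mem_tri_iff.1 (hK hp)
  obtain ⟨α', β', γ', hα', hβ', hγ', hs', hqe⟩ := mem_tri_iff.1 (hK hq)
  obtain ⟨α'', β'', γ'', hα'', hβ'', hγ'', hs'', hre⟩ := mem_tri_iff.1 (hK hr)
  have p0e : p0 = A 0 + β * w0 + γ * z0 := by
    have := congrArg (fun v : E2 => v 0) hpe
    simp at this
    rw [this, hw0, hz0]
    linear_combination (A 0) * hs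
  have p1e : p1 = A 1 + β * w1 + γ * z1 := by
    have := congrArg (fun v : E2 => v 1) hpe
    simp at this
    rw [this, hw1, hz1]
    linear_combination (A 1) * hs
  have q0e : q0 = A 0 + β' * w0 + γ' * z0 := by
    have := congrArg (fun v : E2 => v 0) hqe
    simp at this
    rw [this, hw0, hz0]
    linear_combination (A 0) * hs'
  have q1e : q1 = A 1 + β' * w1 + γ' * z1 := by
    have := congrArg (fun v : E2 => v 1) hqe
    simp at this
    rw [this, hw1, hz1]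
    linear_combination (A 1) * hs'
  have r0e : r0 = A 0 + β'' * w0 + γ'' * z0 := by
    have := congrArg (fun v : E2 => v 0) hre
    simp at this
    rw [this, hw0, hz0]
    linear_combination (A 0) * hs''
  have r1e : r1 = A 1 + β'' * w1 + γ'' * z1 := by
    have := congrArg (fun v : E2 => v 1) hre
    simp at this
    rw [this, hw1, hz1]
    linear_combination (A 1) * hs''
  have eX : (p0 - q0) * w0 + (p1 - q1) * w1 = (β - β') * (w0 ^ 2 + w1 ^ 2) := by
    rw [p0e, p1e, q0e, q1e]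
    linear_combination (γ - γ') * h
  have eY : -(p0 - r0) * w1 + (p1 - r1) * w0 = (γ - γ'') * (w0 * z1 - w1 * z0) := by
    rw [p0e, p1e, r0e, r1e]
    ring
  rw [eX] at hX hXY
  rw [eY] at hY hXY
  generalize w0 * z1 - w1 * z0 = D at *
  generalize w0 ^ 2 + w1 ^ 2 = W at *
  have hX' : (β - β') * W ≤ β * W := by nlinarith
  have hY' : (γ - γ'') * D ≤ γ * D := by nlinarith
  have h1 : (β - β') * W * ((γ - γ'') * D) ≤ β * W * (γ * D) :=
    mul_le_mul hX' hY' hY.le (by positivity)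
  have h2 : β * γ ≤ 1 / 4 := by nlinarith [sq_nonneg (β - γ), sq_nonneg (β + γ)]
  have h3 : β * W * (γ * D) ≤ 1 / 4 * (W * D) := by
    have : β * W * (γ * D) = β * γ * (W * D) := by ring
    rw [this]
    exact mul_le_mul_of_nonneg_right h2 (by positivity)
  have h4 : 1282 * W < 1 / 4 * (W * D) := by linarith
  have h5 : 0 < W * (D - 5128) := by nlinarith
  have := (mul_pos_iff_of_pos_left hW).1 h5
  linarith

lemma key {A B C : E2} (hBA : B ≠ A) (hCA : C ≠ A) (h : inner ℝ (B - A) (C - A) = 0)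
    (hK : K0 ⊆ convexHull ℝ {A, B, C}) : 5128 < |cross (B - A) (C - A)| := by
  rcases lt_trichotomy 0 (cross (B - A) (C - A)) with hD | hD | hD
  · rw [abs_of_pos hD]
    exact key_pos h hD hK
  · exfalso
    have h1 : inner ℝ (B - A) (C - A) ^ 2 + cross (B - A) (C - A) ^ 2 =
        inner ℝ (B - A) (B - A) * inner ℝ (C - A) (C - A) := by
      simp only [inner_E2, cross]; ring
    rw [h, ← hD] at h1
    have h2 : 0 < inner ℝ (B - A) (B - A) := real_inner_self_pos.2 (sub_ne_zero.2 hBA)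
    have h3 : 0 < inner ℝ (C - A) (C - A) := real_inner_self_pos.2 (sub_ne_zero.2 hCA)
    have := mul_pos h2 h3
    rw [zero_pow two_ne_zero, add_zero] at h1
    linarith
  · rw [abs_of_neg hD]
    have e : cross (C - A) (B - A) = - cross (B - A) (C - A) := by simp only [cross]; ring
    rw [← e]
    refine key_pos ?_ (by rw [e]; linarith) ?_
    · rw [real_inner_comm]; exact h
    · have : ({A, C, B} : Set E2) = {A, B, C} := by
        ext x; simp only [mem_insert_iff, mem_singleton_iff]; tauto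
      rw [this]; exact hK

/-- the five half-planes -/
lemma K0_half {x : E2} (hx : x ∈ K0) : 0 ≤ x 1 ∧ 15 * x 0 - x 1 ≤ 300 ∧
    -(15 * x 0) - x 1 ≤ 300 ∧ x 0 + 22 * x 1 ≤ 682 ∧ -x 0 + 22 * x 1 ≤ 682 := by
  have hsub : K0 ⊆ {x : E2 | 0 ≤ x 1 ∧ 15 * x 0 - x 1 ≤ 300 ∧
      -(15 * x 0) - x 1 ≤ 300 ∧ x 0 + 22 * x 1 ≤ 682 ∧ -x 0 + 22 * x 1 ≤ 682} := by
    apply convexHull_min
    · rintro x (rfl | rfl | rfl | rfl | rfl) <;> simp <;> norm_num
    · rintro x ⟨h1, h2, h3, h4, h5⟩ y ⟨k1, k2, k3, k4, k5⟩ s t hs ht hst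
      have e : t = 1 - s := by linarith
      subst e
      simp only [mem_ofPred_eq, PiLp.add_apply, PiLp.smul_apply, smul_eq_mul]
      refine ⟨by positivity, ?_, ?_, ?_, ?_⟩ <;> nlinarith
  exact hsub hx

lemma K0_cover {x : E2} (h1 : 0 ≤ x 1) (h2 : 15 * x 0 - x 1 ≤ 300)
    (h3 : -(15 * x 0) - x 1 ≤ 300) (h4 : x 0 + 22 * x 1 ≤ 682) (h5 : -x 0 + 22 * x 1 ≤ 682) :
    x ∈ convexHull ℝ ({!₂[(-20 : ℝ), 0], !₂[20, 0], !₂[22, 30]} : Set E2) ∪
      (convexHull ℝ ({!₂[(-20 : ℝ), 0], !₂[22, 30], !₂[0, 31]} : Set E2) ∪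
       convexHull ℝ ({!₂[(-20 : ℝ), 0], !₂[0, 31], !₂[-22, 30]} : Set E2)) := by
  rcases le_total (42 * x 1 - 30 * (x 0 + 20)) 0 with g | g
  · left
    apply mem_tri_of_cross <;> simp [cross] <;> linarith
  · right
    rcases le_total (20 * x 1 - 31 * (x 0 + 20)) 0 with g' | g'
    · left
      apply mem_tri_of_cross <;> simp [cross] <;> linarith
    · right
      apply mem_tri_of_cross <;> simp [cross] <;> linarith

lemma fan_subset {a b c : E2} (ha : a ∈ K0) (hb : b ∈ K0) (hc : c ∈ K0) :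
    convexHull ℝ ({a, b, c} : Set E2) ⊆ K0 := by
  apply convexHull_min _ (convex_convexHull ℝ _)
  rintro x (rfl | rfl | rfl)
  · exact ha
  · exact hb
  · exact hc

lemma K0_compact : IsCompact K0 := (Set.toFinite _).isCompact_convexHull ℝ

lemma K0_interior : (interior K0).Nonempty := by
  have hsub : {x : E2 | 0 < x 1 ∧ 15 * x 0 - x 1 < 300 ∧
      -(15 * x 0) - x 1 < 300 ∧ x 0 + 22 * x 1 < 682 ∧ -x 0 + 22 * x 1 < 682} ⊆ K0 := by
    rintro x ⟨h1, h2, h3, h4, h5⟩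
    rcases K0_cover h1.le h2.le h3.le h4.le h5.le with h | h | h
    · exact fan_subset v0_mem v1_mem v2_mem h
    · exact fan_subset v0_mem v2_mem v3_mem h
    · exact fan_subset v0_mem v3_mem v4_mem h
  have ho : IsOpen {x : E2 | 0 < x 1 ∧ 15 * x 0 - x 1 < 300 ∧
      -(15 * x 0) - x 1 < 300 ∧ x 0 + 22 * x 1 < 682 ∧ -x 0 + 22 * x 1 < 682} := by
    have c0 : Continuous fun x : E2 => x 0 := by fun_prop
    have c1 : Continuous fun x : E2 => x 1 := by fun_prop
    have e : {x : E2 | 0 < x 1 ∧ 15 * x 0 - x 1 < 300 ∧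
        -(15 * x 0) - x 1 < 300 ∧ x 0 + 22 * x 1 < 682 ∧ -x 0 + 22 * x 1 < 682} =
        {x : E2 | 0 < x 1} ∩ ({x : E2 | 15 * x 0 - x 1 < 300} ∩
        ({x : E2 | -(15 * x 0) - x 1 < 300} ∩ ({x : E2 | x 0 + 22 * x 1 < 682} ∩
        {x : E2 | -x 0 + 22 * x 1 < 682}))) := by
      ext x; simp
    rw [e]
    refine (isOpen_lt continuous_const c1).inter ((isOpen_lt ?_ continuous_const).inter
      ((isOpen_lt ?_ continuous_const).inter ((isOpen_lt ?_ continuous_const).inter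
        (isOpen_lt ?_ continuous_const)))) <;> fun_prop
  refine ⟨!₂[0, 1], mem_interior.2 ⟨_, hsub, ho, ?_⟩⟩
  simp
  norm_num

lemma volume_K0_le : volume K0 ≤ ENNReal.ofReal 2564 * volume T0 := by
  have h1 : K0 ⊆ convexHull ℝ ({!₂[(-20 : ℝ), 0], !₂[20, 0], !₂[22, 30]} : Set E2) ∪
      (convexHull ℝ ({!₂[(-20 : ℝ), 0], !₂[22, 30], !₂[0, 31]} : Set E2) ∪
       convexHull ℝ ({!₂[(-20 : ℝ), 0], !₂[0, 31], !₂[-22, 30]} : Set E2)) := by
    intro x hx
    obtain ⟨h1, h2, h3, h4, h5⟩ := K0_half hx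
    exact K0_cover h1 h2 h3 h4 h5
  refine (measure_mono h1).trans ((measure_union_le _ _).trans
    ((add_le_add le_rfl (measure_union_le _ _)).trans ?_))
  rw [volume_tri, volume_tri, volume_tri, ← add_mul, ← add_mul,
    ← ENNReal.ofReal_add (abs_nonneg _) (abs_nonneg _),
    ← ENNReal.ofReal_add (abs_nonneg _) (by positivity)]
  gcongr
  simp [cross]
  norm_num

/-- every right triangle containing `K0` has more than twice its area -/
lemma main {A B C : E2} (hBA : B ≠ A) (hCA : C ≠ A) (h : inner ℝ (B - A) (C - A) = 0)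
    (hK : K0 ⊆ convexHull ℝ {A, B, C}) :
    2 * volume K0 < volume (convexHull ℝ ({A, B, C} : Set E2)) := by
  have h1 := key hBA hCA h hK
  rw [volume_tri]
  calc 2 * volume K0 ≤ 2 * (ENNReal.ofReal 2564 * volume T0) := by gcongr; exact volume_K0_le
    _ = ENNReal.ofReal 5128 * volume T0 := by
      have e : (2 : ENNReal) * ENNReal.ofReal 2564 = ENNReal.ofReal 5128 := by
        rw [← ENNReal.ofReal_ofNat 2, ← ENNReal.ofReal_mul (by norm_num)]
        norm_num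
      rw [← mul_assoc, e]
    _ < ENNReal.ofReal |cross (B - A) (C - A)| * volume T0 := by
      rw [ENNReal.mul_lt_mul_iff_left T0_pos.ne' T0_lt_top.ne]
      exact (ENNReal.ofReal_lt_ofReal_iff (by linarith)).2 h1

end Pool.Agent.V11164.RightTri
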