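import Pool.Agent.V11164.Newton

set_option autoImplicit false

open Metric Set

namespace Pool.Agent.V11164.Newton

/-- The vector `e_k + m e_last`. -/
noncomputable def uvec {n : ℕ} (k : Fin n) (m : ℝ) : E (n + 1) :=
  EuclideanSpace.single k.castSucc 1 + m • EuclideanSpace.single (Fin.last n) 1

lemma uvec_apply {n : ℕ} (k : Fin n) (m : ℝ) (i : Fin (n + 1)) :
    uvec k m i = (if i = k.castSucc then 1 else 0) + m * (if i = Fin.last n then 1 else 0) := by
  simp [uvec]

lemma inner_uvec {n : ℕ} (k : Fin n) (m : ℝ) (v : E (n + 1)) :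
    inner ℝ (uvec k m) v = v k.castSucc + m * v (Fin.last n) := by
  rw [uvec, inner_add_left, inner_smul_left, EuclideanSpace.inner_single_left,
    EuclideanSpace.inner_single_left]
  simp

lemma norm_uvec {n : ℕ} (k : Fin n) (m : ℝ) : ‖uvec k m‖ ^ 2 = 1 + m ^ 2 := by
  rw [← real_inner_self_eq_norm_sq, inner_uvec, uvec_apply, uvec_apply]
  have h1 : k.castSucc ≠ Fin.last n := (Fin.castSucc_lt_last k).ne
  simp [h1, h1.symm]
  ring

/-- The reflection through the line spanned by `e_k + m e_last`. -/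
noncomputable def refl {n : ℕ} (k : Fin n) (m : ℝ) : E (n + 1) ≃ₗᵢ[ℝ] E (n + 1) :=
  (Submodule.span ℝ {uvec k m}).reflection

lemma refl_apply {n : ℕ} (k : Fin n) (m : ℝ) (v : E (n + 1)) (i : Fin (n + 1)) :
    refl k m v i = 2 * ((v k.castSucc + m * v (Fin.last n)) / (1 + m ^ 2)) * uvec k m i - v i := by
  have h1 := norm_uvec k m
  rw [refl, Submodule.reflection_singleton_apply, inner_uvec]
  have h2 : (((‖uvec k m‖ : ℝ) : ℝ)) ^ 2 = 1 + m ^ 2 := h1
  simp [h2, mul_assoc]

lemma refl_k {n : ℕ} (k : Fin n) (m : ℝ) (v : E (n + 1)) :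
    refl k m v k.castSucc =
      ((1 - m ^ 2) * v k.castSucc + 2 * m * v (Fin.last n)) / (1 + m ^ 2) := by
  have h1 : k.castSucc ≠ Fin.last n := (Fin.castSucc_lt_last k).ne
  have h2 : (0:ℝ) < 1 + m ^ 2 := by positivity
  rw [refl_apply, uvec_apply]
  simp only [h1, if_true, if_false]
  field_simp
  ring

lemma refl_last {n : ℕ} (k : Fin n) (m : ℝ) (v : E (n + 1)) :
    refl k m v (Fin.last n) =
      (2 * m * v k.castSucc + (m ^ 2 - 1) * v (Fin.last n)) / (1 + m ^ 2) := by
  have h1 : k.castSucc ≠ Fin.last n := (Fin.castSucc_lt_last k).ne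
  have h2 : (0:ℝ) < 1 + m ^ 2 := by positivity
  rw [refl_apply, uvec_apply]
  simp only [h1.symm, if_true, if_false]
  field_simp
  ring

lemma refl_other {n : ℕ} (k i : Fin n) (m : ℝ) (v : E (n + 1)) (hi : i ≠ k) :
    refl k m v i.castSucc = - v i.castSucc := by
  have h1 : i.castSucc ≠ Fin.last n := (Fin.castSucc_lt_last i).ne
  have h2 : i.castSucc ≠ k.castSucc := fun h => hi (Fin.castSucc_injective n h)
  rw [refl_apply, uvec_apply]
  simp [h1, h2]

/-- Rotating the cube `[-1/2,1/2]^n × {0}` strictly into the open prism over itself. -/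
lemma rupert (n : ℕ) : ∀ k : ℕ, k ≤ n → ∀ δ : ℝ, 0 < δ →
    ∃ (T : E (n + 1) ≃ₗᵢ[ℝ] E (n + 1)) (σ : ℝ), 0 < σ ∧
      ∀ y : E (n + 1), (∀ i : Fin n, |y i.castSucc| ≤ 1 / 2) → y (Fin.last n) = 0 →
        (∀ i : Fin n, |T y i.castSucc| ≤ 1 / 2) ∧
        (∀ i : Fin n, (i : ℕ) < k → |T y i.castSucc| ≤ 1 / 2 - σ) ∧ |T y (Fin.last n)| < δ := by
  intro k
  induction k with
  | zero =>
    intro _ δ hδ
    refine ⟨LinearIsometryEquiv.refl ℝ _, 1, one_pos, fun y hy h0 => ⟨?_, ?_, ?_⟩⟩
    · intro i
      simpa using hy i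
    · intro i hi
      omega
    · simpa [h0] using hδ
  | succ k ih =>
    intro hk δ hδ
    set m : ℝ := min (δ / 2) (1 / 2) with hm
    have hm0 : 0 < m := lt_min (by linarith) (by norm_num)
    have hm1 : m ≤ 1 / 2 := min_le_right _ _
    have hm2 : m ≤ δ / 2 := min_le_left _ _
    obtain ⟨T, σ, hσ, hT⟩ := ih (by omega) (m / 4) (by positivity)
    let k' : Fin n := ⟨k, by omega⟩
    have hD : (0:ℝ) < 1 + m ^ 2 := by positivity
    refine ⟨T.trans (refl k' m), min σ (m ^ 2 / (2 * (1 + m ^ 2))), lt_min hσ (by positivity),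
      fun y hy h0 => ?_⟩
    obtain ⟨h1, h2, h3⟩ := hT y hy h0
    have key : |refl k' m (T y) k'.castSucc| ≤ 1 / 2 - m ^ 2 / (2 * (1 + m ^ 2)) := by
      rw [refl_k, abs_div, abs_of_pos hD, div_le_iff₀ hD]
      have h4 : |(1 - m ^ 2) * (T y) k'.castSucc + 2 * m * (T y) (Fin.last n)| ≤
          (1 - m ^ 2) * (1 / 2) + 2 * m * (m / 4) := by
        refine (abs_add_le _ _).trans (add_le_add ?_ ?_)
        · rw [abs_mul, abs_of_pos (by nlinarith)]
          exact mul_le_mul_of_nonneg_left (h1 k') (by nlinarith)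
        · rw [abs_mul, abs_of_pos (by positivity)]
          exact mul_le_mul_of_nonneg_left h3.le (by positivity)
      refine h4.trans ?_
      have h5 : (1 / 2 - m ^ 2 / (2 * (1 + m ^ 2))) * (1 + m ^ 2) =
          1 / 2 * (1 + m ^ 2) - m ^ 2 / 2 := by
        field_simp
      rw [h5]
      nlinarith [sq_nonneg m]
    have hpos : 0 ≤ m ^ 2 / (2 * (1 + m ^ 2)) := by positivity
    refine ⟨fun i => ?_, fun i hi => ?_, ?_⟩
    · show |refl k' m (T y) i.castSucc| ≤ 1 / 2
      by_cases hik : i = k'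
      · rw [hik]; linarith
      · rw [refl_other _ _ _ _ hik, abs_neg]
        exact h1 i
    · show |refl k' m (T y) i.castSucc| ≤ 1 / 2 - min σ (m ^ 2 / (2 * (1 + m ^ 2)))
      by_cases hik : i = k'
      · rw [hik]
        have := min_le_right σ (m ^ 2 / (2 * (1 + m ^ 2)))
        linarith
      · rw [refl_other _ _ _ _ hik, abs_neg]
        have h6 : (i : ℕ) < k := by
          have : (i : ℕ) ≠ k := fun h => hik (Fin.ext h)
          omega
        have := min_le_left σ (m ^ 2 / (2 * (1 + m ^ 2)))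
        have := h2 i h6
        linarith
    · show |refl k' m (T y) (Fin.last n)| < δ
      rw [refl_last, abs_div, abs_of_pos hD, div_lt_iff₀ hD]
      have h4 : |2 * m * (T y) k'.castSucc + (m ^ 2 - 1) * (T y) (Fin.last n)| ≤
          2 * m * (1 / 2) + (1 - m ^ 2) * (m / 4) := by
        refine (abs_add_le _ _).trans (add_le_add ?_ ?_)
        · rw [abs_mul, abs_of_pos (by positivity)]
          exact mul_le_mul_of_nonneg_left (h1 k') (by positivity)
        · rw [abs_mul, abs_of_neg (by nlinarith)]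
          have : -(m ^ 2 - 1) = 1 - m ^ 2 := by ring
          rw [this]
          exact mul_le_mul_of_nonneg_left h3.le (by nlinarith)
      refine h4.trans_lt ?_
      have : 0 < m ^ 2 := by positivity
      nlinarith


/-- The unit vector in the direction of the height. -/
noncomputable def evec (n : ℕ) : E (n + 1) := EuclideanSpace.single (Fin.last n) 1

lemma evec_last (n : ℕ) : evec n (Fin.last n) = 1 := by simp [evec]

lemma evec_castSucc {n : ℕ} (i : Fin n) : evec n i.castSucc = 0 := by
  simp [evec]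

/-- Two congruent copies suffice for tall pyramids. -/
lemma upper {n : ℕ} (hn : 1 ≤ n) : ∃ H : ℝ, 0 < H ∧ ∀ h : ℝ, H ≤ h →
    ∃ g : Fin 2 → (E (n + 1) ≃ᵢ E (n + 1)), Covers (pyramid n h) g := by
  obtain ⟨T, σ, hσ, hT⟩ := rupert n n le_rfl 1 one_pos
  refine ⟨2 / σ, by positivity, fun h hH => ?_⟩
  have hh : 0 < h := lt_of_lt_of_le (by positivity) hH
  have hh1 : 1 / h < σ := by
    have : 2 / σ ≤ h := hH
    rw [div_le_iff₀ hσ] at this
    rw [div_lt_iff₀ hh]
    linarith
  let c : E (n + 1) := apex n 0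
  have hc1 : ∀ i : Fin n, c i.castSucc = 1 / 2 := fun i => apex_castSucc n 0 i
  have hc2 : c (Fin.last n) = 0 := apex_last n 0
  let G : E (n + 1) ≃ᵢ E (n + 1) := ((IsometryEquiv.subRight c).trans
    T.toIsometryEquiv).trans (IsometryEquiv.addRight (c + evec n))
  have hG : ∀ x, G x = T (x - c) + (c + evec n) := fun x => rfl
  let V : Set (E (n + 1)) := {x | 0 < G x (Fin.last n) ∧
    ∀ i : Fin n, |G x i.castSucc - 1 / 2| < (1 - G x (Fin.last n) / h) / 2}
  have hVo : IsOpen V := by
    have hcl : Continuous fun x => G x (Fin.last n) :=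
      (continuous_coord (Fin.last n)).comp G.continuous
    have : V = {x | 0 < G x (Fin.last n)} ∩
        ⋂ i : Fin n, {x | |G x i.castSucc - 1 / 2| < (1 - G x (Fin.last n) / h) / 2} := by
      ext x; simp [V]
    rw [this]
    refine (isOpen_lt continuous_const hcl).inter (isOpen_iInter_of_finite fun i => ?_)
    have hci : Continuous fun x => G x i.castSucc :=
      (continuous_coord i.castSucc).comp G.continuous
    exact isOpen_lt (by fun_prop) (by fun_prop)
  have hVg : V ⊆ G.symm '' pyramid n h := by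
    intro x hx
    refine ⟨G x, ?_, G.symm_apply_apply x⟩
    rw [pyramid_eq hh]
    refine ⟨hx.1.le, ?_, fun i => (hx.2 i).le⟩
    have h1 := (abs_nonneg _).trans_lt (hx.2 ⟨0, hn⟩)
    have h2 : G x (Fin.last n) / h < 1 := by linarith
    rw [div_lt_one hh] at h2
    exact h2.le
  have hbase : ∀ x ∈ pyramid n h, x (Fin.last n) = 0 → x ∈ V := by
    intro x hx h0
    rw [pyramid_eq hh] at hx
    obtain ⟨-, -, hx3⟩ := hx
    rw [h0, zero_div, sub_zero] at hx3
    obtain ⟨-, h2, h3⟩ := hT (x - c) (fun i => by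
      rw [PiLp.sub_apply, hc1]; exact hx3 i) (by rw [PiLp.sub_apply, hc2, h0, sub_zero])
    rw [abs_lt] at h3
    have e1 : G x (Fin.last n) = T (x - c) (Fin.last n) + 1 := by
      rw [hG, PiLp.add_apply, PiLp.add_apply, hc2, evec_last, zero_add]
    refine ⟨by rw [e1]; linarith, fun i => ?_⟩
    have e2 : G x i.castSucc = T (x - c) i.castSucc + 1 / 2 := by
      rw [hG, PiLp.add_apply, PiLp.add_apply, hc1, evec_castSucc, add_zero]
    rw [e1, e2, add_sub_cancel_right]
    refine (h2 i i.2).trans_lt ?_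
    have : (T (x - c) (Fin.last n) + 1) / h < 2 * (1 / h) := by
      rw [mul_one_div]
      exact div_lt_div_of_pos_right (by linarith) hh
    linarith
  -- the part of the pyramid outside `V` has positive height
  obtain ⟨t, ht, hPt⟩ : ∃ t : ℝ, 0 < t ∧ ∀ x ∈ pyramid n h, x ∉ V → 2 * t ≤ x (Fin.last n) := by
    rcases (pyramid n h \ V).eq_empty_or_nonempty with he | hne
    · refine ⟨1, one_pos, fun x hx hxV => ?_⟩
      exact absurd (show x ∈ pyramid n h \ V from ⟨hx, hxV⟩) (by rw [he]; exact id)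
    · obtain ⟨x0, hx0, hmin⟩ := ((isCompact_pyramid n hh).diff hVo).exists_isMinOn hne
        (continuous_coord (Fin.last n)).continuousOn
      have hpos : 0 < x0 (Fin.last n) := by
        have h1 := hx0.1
        rw [pyramid_eq hh] at h1
        refine lt_of_le_of_ne h1.1 fun h2 => hx0.2 (hbase x0 hx0.1 h2.symm)
      refine ⟨x0 (Fin.last n) / 2, by positivity, fun x hx hxV => ?_⟩
      have := isMinOn_iff.1 hmin x ⟨hx, hxV⟩
      linarith
  let S : E (n + 1) ≃ᵢ E (n + 1) := IsometryEquiv.addRight (t • evec n)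
  let W : Set (E (n + 1)) := {x | t < x (Fin.last n) ∧
    ∀ i : Fin n, |x i.castSucc - 1 / 2| < (1 - (x (Fin.last n) - t) / h) / 2}
  have hWo : IsOpen W := by
    have hcl := continuous_coord (Fin.last n)
    have : W = {x | t < x (Fin.last n)} ∩
        ⋂ i : Fin n, {x | |x i.castSucc - 1 / 2| < (1 - (x (Fin.last n) - t) / h) / 2} := by
      ext x; simp [W]
    rw [this]
    refine (isOpen_lt continuous_const hcl).inter (isOpen_iInter_of_finite fun i => ?_)
    have hci := continuous_coord i.castSucc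
    exact isOpen_lt (by fun_prop) (by fun_prop)
  have hWg : W ⊆ S '' pyramid n h := by
    intro x hx
    refine ⟨x - t • evec n, ?_, ?_⟩
    · have e1 : (x - t • evec n) (Fin.last n) = x (Fin.last n) - t := by
        rw [PiLp.sub_apply, PiLp.smul_apply, evec_last, smul_eq_mul, mul_one]
      have e2 : ∀ i : Fin n, (x - t • evec n) i.castSucc = x i.castSucc := fun i => by
        rw [PiLp.sub_apply, PiLp.smul_apply, evec_castSucc, smul_zero, sub_zero]
      rw [pyramid_eq hh]
      refine ⟨?_, ?_, fun i => ?_⟩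
      · rw [e1]; linarith [hx.1]
      · rw [e1]
        have h1 := (abs_nonneg _).trans_lt (hx.2 ⟨0, hn⟩)
        have h2 : (x (Fin.last n) - t) / h < 1 := by linarith
        rw [div_lt_one hh] at h2
        exact h2.le
      · rw [e1, e2]
        exact (hx.2 i).le
    · show x - t • evec n + t • evec n = x
      rw [sub_add_cancel]
  refine ⟨fun i => if i = 0 then G.symm else S, V ∪ W, hVo.union hWo, ?_, ?_⟩
  · intro x hx
    by_cases hxV : x ∈ V
    · exact Or.inl hxV
    · right
      have h1 := hPt x hx hxV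
      rw [pyramid_eq hh] at hx
      refine ⟨by linarith, fun i => (hx.2.2 i).trans_lt ?_⟩
      have : (x (Fin.last n) - t) / h < x (Fin.last n) / h :=
        div_lt_div_of_pos_right (by linarith) hh
      linarith
  · rintro x (hx | hx)
    · rw [mem_iUnion]
      exact ⟨0, by simpa using hVg hx⟩
    · rw [mem_iUnion]
      exact ⟨1, by simpa using hWg hx⟩

lemma cube_covers (k : ℕ) : ∃ (m : ℕ) (g : Fin m → (E k ≃ᵢ E k)), Covers (cube k) g := by
  let e := Fintype.equivFin (Fin k → Bool)
  let v : (Fin k → Bool) → E k := fun b => WithLp.toLp 2 (fun i => if b i then 1 / 4 else - 1 / 4)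
  refine ⟨Fintype.card (Fin k → Bool), fun a => IsometryEquiv.addRight (v (e.symm a)),
    {x | ∀ i, -1 / 4 < x i ∧ x i < 5 / 4}, ?_, ?_, ?_⟩
  · have : {x : E k | ∀ i, -1 / 4 < x i ∧ x i < 5 / 4} =
        ⋂ i : Fin k, {x : E k | -1 / 4 < x i ∧ x i < 5 / 4} := by
      ext x; simp
    rw [this]
    refine isOpen_iInter_of_finite fun i => ?_
    exact (isOpen_lt continuous_const (continuous_coord i)).inter
      (isOpen_lt (continuous_coord i) continuous_const)
  · intro x hx i
    have := hx i
    constructor <;> linarith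
  · intro x hx
    rw [mem_iUnion]
    let b : Fin k → Bool := fun i => decide (1 / 2 < x i)
    refine ⟨e b, x - v b, fun i => ?_, ?_⟩
    · have h1 := hx i
      have h2 : (x - v b) i = x i - (if 1 / 2 < x i then 1 / 4 else - 1 / 4) := by
        simp [v, b]
      rw [h2]
      split_ifs with h3
      · constructor <;> linarith
      · constructor <;> linarith
    · show x - v b + v (e.symm (e b)) = x
      rw [Equiv.symm_apply_apply, sub_add_cancel]

end Pool.Agent.V11164.Newton
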